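import Pool.Agent.Lib.MP_2b7cb2_co.Defs

namespace Pool.Agent.MP_2b7cb2_co

open SimpleGraph Finset

/-- Embedding a virus given a clique and a matching into it. -/
lemma virus_isContained_of_maps {V A B : Type*} [Fintype A] [Fintype B] {s t : ℕ}
    (hA : Fintype.card A = t) (hB : Fintype.card B = s) (G : SimpleGraph V)
    (Q : A → V) (L : B → V) (M : B → A) (hQ : Function.Injective Q) (hL : Function.Injective L)
    (hM : Function.Injective M) (hQL : ∀ a b, Q a ≠ L b)
    (hclique : ∀ a a', a ≠ a' → G.Adj (Q a) (Q a')) (hadj : ∀ b, G.Adj (Q (M b)) (L b)) :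
    (virus s t).IsContained G := by
  classical
  have hst : s ≤ t := by
    rw [← hA, ← hB]
    exact Fintype.card_le_of_injective M hM
  let eA : A ≃ Fin t := Fintype.equivFinOfCardEq hA
  let eB : B ≃ Fin s := Fintype.equivFinOfCardEq hB
  let c : Fin s → Fin t := Fin.castLE hst
  have hc : Function.Injective c := Fin.castLE_injective hst
  let f : Fin s → Fin t := fun j => eA (M (eB.symm j))
  have hf : Function.Injective f := fun i j h => eB.symm.injective (hM (eA.injective h))
  let e' : {x // x ∈ Set.range c} ≃ {x // x ∈ Set.range f} :=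
    (Equiv.ofInjective c hc).symm.trans (Equiv.ofInjective f hf)
  let π : Equiv.Perm (Fin t) := e'.extendSubtype
  have hπ : ∀ j, π (c j) = f j := by
    intro j
    have h1 : π (c j) = e' ⟨c j, j, rfl⟩ := e'.extendSubtype_apply_of_mem (c j) ⟨j, rfl⟩
    rw [h1]
    have h2 : (Equiv.ofInjective c hc).symm ⟨c j, j, rfl⟩ = j := by
      rw [Equiv.symm_apply_eq]
      rfl
    simp only [e', Equiv.trans_apply, h2]
    rfl
  let F : Fin t ⊕ Fin s → V := Sum.elim (fun i => Q (eA.symm (π i))) (fun j => L (eB.symm j))
  have hFadj : ∀ {x y}, (virus s t).Adj x y → G.Adj (F x) (F y) := by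
    have key : ∀ (i : Fin t) (j : Fin s), (i : ℕ) = (j : ℕ) →
        G.Adj (Q (eA.symm (π i))) (L (eB.symm j)) := by
      intro i j hij
      have : i = c j := Fin.ext hij
      subst this
      rw [hπ]
      have := hadj (eB.symm j)
      simpa [f] using this
    rintro (i | i) (j | j) h
    · have h' : i ≠ j := h
      exact hclique _ _ (fun h2 => h' (π.injective (eA.symm.injective h2)))
    · exact key i j h
    · exact (key j i h).symm
    · exact absurd h (fun h => h)
  have hFinj : Function.Injective F := by
    rintro (i | i) (j | j) h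
    · exact congrArg Sum.inl (π.injective (eA.symm.injective (hQ h)))
    · exact absurd h (hQL _ _)
    · exact absurd h.symm (hQL _ _)
    · exact congrArg Sum.inr (eB.symm.injective (hL h))
  exact ⟨⟨⟨F, hFadj⟩, hFinj⟩⟩

/-- Embedding a virus given `a` universal vertices, a clique and `r` leaves attached to it. -/
lemma virus_isContained_of_data {V A R : Type*} [Fintype V] [Fintype A] [Fintype R] {a r t' : ℕ}
    (hA : Fintype.card A = t') (hR : Fintype.card R = r)
    (G : SimpleGraph V) (z : Fin a → V) (q : A → V) (l : R → V) (m : R → A)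
    (hz : Function.Injective z) (hq : Function.Injective q) (hl : Function.Injective l)
    (hm : Function.Injective m) (huniv : ∀ i v, v ≠ z i → G.Adj (z i) v)
    (hclique : ∀ i j, i ≠ j → G.Adj (q i) (q j)) (hzq : ∀ i j, z i ≠ q j)
    (hzl : ∀ i j, z i ≠ l j) (hql : ∀ i j, q i ≠ l j) (hadj : ∀ i, G.Adj (q (m i)) (l i))
    (hcard : (a + r) + (a + t') ≤ Fintype.card V) :
    (virus (a + r) (a + t')).IsContained G := by
  classical
  let used : Finset V := univ.image z ∪ univ.image q ∪ univ.image l
  have hused : used.card ≤ a + t' + r := by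
    calc used.card ≤ (univ.image z ∪ univ.image q).card + (univ.image l).card :=
          Finset.card_union_le _ _
      _ ≤ ((univ.image z).card + (univ.image q).card) + (univ.image l).card :=
          Nat.add_le_add_right (Finset.card_union_le _ _) _
      _ ≤ (a + t') + r := by
          have h1 : (univ.image z).card ≤ a := by
            simpa using Finset.card_image_le (s := univ) (f := z)
          have h2 : (univ.image q).card ≤ t' := by
            simpa [hA] using Finset.card_image_le (s := univ) (f := q)
          have h3 : (univ.image l).card ≤ r := by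
            simpa [hR] using Finset.card_image_le (s := univ) (f := l)
          omega
  have hcompl : a ≤ (usedᶜ).card := by
    rw [Finset.card_compl]
    omega
  obtain ⟨W, hWsub, hWcard⟩ := Finset.exists_subset_card_eq hcompl
  let w : Fin a → V := fun i => ((Finset.equivFinOfCardEq hWcard).symm i : V)
  have hw : Function.Injective w := by
    intro i j hij
    exact (Finset.equivFinOfCardEq hWcard).symm.injective (Subtype.ext hij)
  have hwused : ∀ i, w i ∉ used := by
    intro i
    have h1 : w i ∈ W := ((Finset.equivFinOfCardEq hWcard).symm i).2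
    exact Finset.mem_compl.mp (hWsub h1)
  have hwz : ∀ i j, z i ≠ w j := by
    intro i j h
    apply hwused j
    rw [← h]
    simp [used]
  have hwq : ∀ i j, q i ≠ w j := by
    intro i j h
    apply hwused j
    rw [← h]
    simp [used]
  have hwl : ∀ i j, l i ≠ w j := by
    intro i j h
    apply hwused j
    rw [← h]
    simp [used]
  refine virus_isContained_of_maps (A := Fin a ⊕ A) (B := Fin a ⊕ R) (by simp [hA])
    (by simp [hR]) G (Sum.elim z q) (Sum.elim w l) (Sum.map id m) ?_ ?_ ?_ ?_ ?_ ?_
  · rintro (i | i) (j | j) h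
    · exact congrArg Sum.inl (hz h)
    · exact absurd h (hzq _ _)
    · exact absurd h.symm (hzq _ _)
    · exact congrArg Sum.inr (hq h)
  · rintro (i | i) (j | j) h
    · exact congrArg Sum.inl (hw h)
    · exact absurd h.symm (hwl _ _)
    · exact absurd h (hwl _ _)
    · exact congrArg Sum.inr (hl h)
  · exact Sum.map_injective.mpr ⟨Function.injective_id, hm⟩
  · rintro (i | i) (j | j)
    · exact hwz _ _
    · exact hzl _ _
    · exact hwq _ _
    · exact hql _ _
  · rintro (i | i) (j | j) h
    · exact huniv _ _ (fun h2 => h (congrArg Sum.inl (hz h2.symm)))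
    · exact huniv _ _ (hzq _ _).symm
    · exact (huniv _ _ (hzq _ _).symm).symm
    · exact hclique _ _ (fun h2 => h (congrArg Sum.inr h2))
  · rintro (i | i)
    · exact huniv _ _ (hwz _ _).symm
    · exact hadj i

/-- Reindexing the vertex set preserves saturation. -/
lemma IsSaturated.comap_equiv {V V' W : Type*} {F : SimpleGraph W} {G : SimpleGraph V}
    (h : IsSaturated F G) (e : V' ≃ V) : IsSaturated F (G.comap e) := by
  refine ⟨?_, ?_⟩
  · intro hc
    exact h.1 (hc.trans ⟨(Iso.comap e G).toCopy⟩)
  · intro u v huv hnadj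
    have h1 := h.2 (e u) (e v) (fun h2 => huv (e.injective h2)) hnadj
    refine h1.trans ⟨⟨⟨e.symm, ?_⟩, e.symm.injective⟩⟩
    intro x y hxy
    rw [SimpleGraph.sup_adj, SimpleGraph.edge_adj] at hxy ⊢
    rcases hxy with hxy | ⟨hxy, hne⟩
    · left
      simpa using hxy
    · right
      refine ⟨?_, fun h2 => hne (e.symm.injective h2)⟩
      rcases hxy with ⟨h2, h3⟩ | ⟨h2, h3⟩
      · left
        exact ⟨by rw [h2]; simp, by rw [h3]; simp⟩
      · right
        exact ⟨by rw [h2]; simp, by rw [h3]; simp⟩

/-- Saturated graphs exist (so the infimum in `sat` is over a nonempty set). -/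
lemma exists_saturated {V W : Type*} [Finite V] (F : SimpleGraph W) (h0 : F.Free (⊥ : SimpleGraph V)) :
    ∃ G : SimpleGraph V, IsSaturated F G := by
  classical
  have hfin : {G : SimpleGraph V | F.Free G}.Finite := Set.toFinite _
  obtain ⟨G, hG⟩ := hfin.exists_maximal ⟨⊥, h0⟩
  refine ⟨G, hG.prop, ?_⟩
  intro u v huv hnadj
  by_contra hcon
  have h1 : G ⊔ SimpleGraph.edge u v ≤ G := hG.le_of_ge hcon le_sup_left
  apply hnadj
  apply h1
  rw [SimpleGraph.sup_adj, SimpleGraph.edge_adj]
  exact Or.inr ⟨Or.inl ⟨rfl, rfl⟩, huv⟩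

end Pool.Agent.MP_2b7cb2_co
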