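import Mathlib

namespace Pool.Agent.MP_2b7cb2_co

/-- The virus graph `K^s_t` (for `s ≤ t`) on `t + s` vertices: the complete graph on the `t`
vertices `Sum.inl i`, together with, for each `j < s`, a vertex `Sum.inr j` of degree `1` whose
only neighbour is the clique vertex `Sum.inl j`. -/
def virus (s t : ℕ) : SimpleGraph (Fin t ⊕ Fin s) where
  Adj x y :=
    match x, y with
    | .inl i, .inl j => i ≠ j
    | .inl i, .inr j => (i : ℕ) = (j : ℕ)
    | .inr j, .inl i => (i : ℕ) = (j : ℕ)
    | .inr _, .inr _ => False
  symm := ⟨by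
    rintro (i | i) (j | j) h
    · exact Ne.symm h
    · exact h
    · exact h
    · exact h⟩
  loopless := ⟨by
    rintro (i | i) h
    · exact h rfl
    · exact h⟩

/-- `G` is `F`-saturated: `G` contains no copy of `F` (as a not necessarily induced subgraph),
but for every pair of distinct non-adjacent vertices `u, v` the graph `G + uv` contains a
copy of `F`. -/
def IsSaturated {V W : Type*} (F : SimpleGraph W) (G : SimpleGraph V) : Prop :=
  F.Free G ∧ ∀ u v : V, u ≠ v → ¬ G.Adj u v → F.IsContained (G ⊔ SimpleGraph.edge u v)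

/-- `sat n F` is the least number of edges of an `F`-saturated graph on `n` vertices
(used for `n ≥ |V(F)|`). -/
noncomputable def sat (n : ℕ) {W : Type*} (F : SimpleGraph W) : ℕ :=
  sInf {m : ℕ | ∃ G : SimpleGraph (Fin n), IsSaturated F G ∧ G.edgeSet.ncard = m}

end Pool.Agent.MP_2b7cb2_co
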