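import Pool.Agent.Lib.MP_2b7cb2_co.Saturated

namespace Pool.Agent.MP_2b7cb2_co

open SimpleGraph Finset Vert

variable {a p N k : ℕ}

lemma sum_vert (f : Vert a p N k → ℕ) :
    ∑ v, f v = (∑ i, f (z i) + ∑ j, f (h j)) +
      (∑ b, (∑ i, f (x b i) + ∑ j, ∑ e, f (y b j e)) + ∑ d, ∑ i, f (c d i)) := by
  rw [← Equiv.sum_comp (equivSum (a := a) (p := p) (N := N) (k := k)).symm f]
  simp only [Fintype.sum_sum_type, Fintype.sum_prod_type]
  rfl

/-- Indicator of a proposition. -/
noncomputable def ind (P : Prop) : ℕ := by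
  classical exact if P then 1 else 0

lemma ind_true : ind True = 1 := by simp [ind]

lemma ind_false : ind False = 0 := by simp [ind]

lemma ind_and (P Q : Prop) : ind (P ∧ Q) = ind P * ind Q := by
  by_cases hP : P <;> by_cases hQ : Q <;> simp [ind, hP, hQ]

lemma sum_ind_eq {m : ℕ} (i : Fin m) : ∑ j, ind (i = j) = 1 := by
  rw [Finset.sum_eq_single i]
  · simp [ind]
  · intro j _ hj
    simp [ind, hj.symm]
  · simp

lemma sum_ind_eq' {m : ℕ} (i : Fin m) : ∑ j, ind (j = i) = 1 := by
  rw [Finset.sum_eq_single i]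
  · simp [ind]
  · intro j _ hj
    simp [ind, hj]
  · simp

lemma sum_ind_ne {m : ℕ} (i : Fin m) : ∑ j, ind (i ≠ j) = m - 1 := by
  have h1 : ∑ j : Fin m, (ind (i ≠ j) + ind (i = j)) = m := by
    have : ∀ j : Fin m, ind (i ≠ j) + ind (i = j) = 1 := by
      intro j
      by_cases h : i = j <;> simp [ind, h]
    simp [this]
  rw [Finset.sum_add_distrib, sum_ind_eq] at h1
  omega

/-- Degrees. -/
lemma dg_z (i : Fin a) : ∑ w : Vert a p N k, ind (adj (z i) w) =
    (a - 1) + 2 + (N * (p + 4) + k * (p + 5)) := by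
  rw [sum_vert]
  simp only [adj, ind_true, sum_ind_ne, Finset.sum_const, Finset.card_univ, Fintype.card_fin,
    smul_eq_mul, mul_one]

lemma dg_h (j : Fin 2) : ∑ w : Vert a p N k, ind (adj (h j) w) = a + 1 + N * 2 := by
  rw [sum_vert]
  simp only [adj, ind_true, ind_false, sum_ind_ne, Finset.sum_const, Finset.card_univ,
    Fintype.card_fin, smul_eq_mul, mul_one, ← Finset.mul_sum, sum_ind_eq]
  ring

lemma dg_x (b : Fin N) (i : Fin p) : ∑ w : Vert a p N k, ind (adj (x b i) w) =
    a + (p - 1) + 4 := by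
  rw [sum_vert]
  simp only [adj, ind_true, ind_false, sum_ind_ne, Finset.sum_const, Finset.card_univ,
    Fintype.card_fin, smul_eq_mul, mul_one, ind_and, ← Finset.mul_sum, Finset.sum_add_distrib,
    ← Finset.sum_mul, sum_ind_eq]
  ring

lemma dg_y (b : Fin N) (j e : Fin 2) : ∑ w : Vert a p N k, ind (adj (y b j e) w) =
    a + p + 2 := by
  rw [sum_vert]
  simp only [adj, ind_true, ind_false, sum_ind_ne, Finset.sum_const, Finset.card_univ,
    Fintype.card_fin, smul_eq_mul, mul_one, ind_and, ← Finset.mul_sum, Finset.sum_add_distrib,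
    ← Finset.sum_mul, sum_ind_eq, sum_ind_eq']
  ring

lemma dg_c (d : Fin k) (i : Fin (p + 5)) : ∑ w : Vert a p N k, ind (adj (c d i) w) =
    a + p + 4 := by
  rw [sum_vert]
  simp only [adj, ind_true, ind_false, sum_ind_ne, Finset.sum_const, Finset.card_univ,
    Fintype.card_fin, smul_eq_mul, mul_one, ind_and, ← Finset.mul_sum,
    ← Finset.sum_mul, sum_ind_eq]
  simp
  ring

lemma sum_dg (hp : 1 ≤ p) : ∑ v : Vert a p N k, ∑ w : Vert a p N k, ind (adj v w) =
    a * (a + 1 + (N * (p + 4) + k * (p + 5))) + 2 * (a + 1 + N * 2) +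
      (N * (p * (a + p + 3) + 4 * (a + p + 2)) + k * ((p + 5) * (a + p + 4))) := by
  rw [sum_vert]
  simp only [dg_z, dg_h, dg_x, dg_y, dg_c, Finset.sum_const, Finset.card_univ,
    Fintype.card_fin, smul_eq_mul]
  have h1 : a * (a - 1 + 2 + (N * (p + 4) + k * (p + 5))) =
      a * (a + 1 + (N * (p + 4) + k * (p + 5))) := by
    rcases a with _ | a
    · simp
    · congr 2
  have h2 : a + (p - 1) + 4 = a + p + 3 := by omega
  rw [h1, h2]
  ring

/-- Twice the number of edges of the construction. -/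
theorem two_mul_ncard (hp : 1 ≤ p) : 2 * (G a p N k).edgeSet.ncard + (a + p + 2) * (a + 2) =
    (p + 2 * a + 3) * (a + 2 + N * (p + 4) + k * (p + 5)) + k * (p + 5) := by
  classical
  have h1 : (G a p N k).edgeSet.ncard = (G a p N k).edgeFinset.card := by
    rw [← SimpleGraph.coe_edgeFinset, Set.ncard_coe_finset]
  rw [h1, ← SimpleGraph.sum_degrees_eq_twice_card_edges]
  have h2 : ∀ v, (G a p N k).degree v = ∑ w, ind (adj v w) := by
    intro v
    rw [← SimpleGraph.card_neighborFinset_eq_degree, SimpleGraph.neighborFinset_eq_filter,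
      Finset.card_filter]
    refine Finset.sum_congr rfl (fun w _ => ?_)
    by_cases h : adj v w <;> simp [ind, h]
  simp only [h2]
  rw [sum_dg hp]
  ring

end Pool.Agent.MP_2b7cb2_co
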