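import Pool.Agent.Lib.MP_2b7cb2_co.Basic

namespace Pool.Agent.MP_2b7cb2_co

open SimpleGraph Finset

/-- Vertices of the construction: `a` universal vertices `z i`, two hubs `h j`, `N` blocks with
vertices `x b i` (`i < p`) and `y b j e` (`j, e < 2`), and `k` clique components of size `p + 5`
with vertices `c d i`. -/
inductive Vert (a p N k : ℕ)
  | z (i : Fin a)
  | h (j : Fin 2)
  | x (b : Fin N) (i : Fin p)
  | y (b : Fin N) (j e : Fin 2)
  | c (d : Fin k) (i : Fin (p + 5))

namespace Vert

variable {a p N k : ℕ}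

/-- The vertex set as an iterated sum type. -/
def equivSum : Vert a p N k ≃
    (Fin a ⊕ Fin 2) ⊕ ((Fin N × (Fin p ⊕ (Fin 2 × Fin 2))) ⊕ (Fin k × Fin (p + 5))) where
  toFun
    | z i => .inl (.inl i)
    | h j => .inl (.inr j)
    | x b i => .inr (.inl (b, .inl i))
    | y b j e => .inr (.inl (b, .inr (j, e)))
    | c d i => .inr (.inr (d, i))
  invFun
    | .inl (.inl i) => z i
    | .inl (.inr j) => h j
    | .inr (.inl (b, .inl i)) => x b i
    | .inr (.inl (b, .inr (j, e))) => y b j e
    | .inr (.inr (d, i)) => c d i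
  left_inv := by rintro (i | j | ⟨b, i⟩ | ⟨b, j, e⟩ | ⟨d, i⟩) <;> rfl
  right_inv := by rintro ((i | j) | ⟨b, (i | ⟨j, e⟩)⟩ | ⟨d, i⟩) <;> rfl

instance : Fintype (Vert a p N k) := Fintype.ofEquiv _ equivSum.symm

lemma card_vert : Fintype.card (Vert a p N k) = a + 2 + N * (p + 4) + k * (p + 5) := by
  rw [Fintype.card_congr (equivSum (a := a) (p := p) (N := N) (k := k))]
  simp only [Fintype.card_sum, Fintype.card_prod, Fintype.card_fin]
  ring

/-- Adjacency of the construction. -/
def adj : Vert a p N k → Vert a p N k → Prop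
  | z i, z j => i ≠ j
  | z _, h _ => True
  | z _, x _ _ => True
  | z _, y _ _ _ => True
  | z _, c _ _ => True
  | h _, z _ => True
  | h i, h j => i ≠ j
  | h _, x _ _ => False
  | h i, y _ j _ => i = j
  | h _, c _ _ => False
  | x _ _, z _ => True
  | x _ _, h _ => False
  | x b i, x b' i' => b = b' ∧ i ≠ i'
  | x b _, y b' _ _ => b = b'
  | x _ _, c _ _ => False
  | y _ _ _, z _ => True
  | y _ j _, h i => i = j
  | y b' _ _, x b _ => b = b'
  | y b j e, y b' j' e' => b = b' ∧ j = j' ∧ e ≠ e'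
  | y _ _ _, c _ _ => False
  | c _ _, z _ => True
  | c _ _, h _ => False
  | c _ _, x _ _ => False
  | c _ _, y _ _ _ => False
  | c d i, c d' i' => d = d' ∧ i ≠ i'

/-- The construction. -/
def G (a p N k : ℕ) : SimpleGraph (Vert a p N k) where
  Adj := adj
  symm := ⟨by
    rintro (i | j | ⟨b, i⟩ | ⟨b, j, e⟩ | ⟨d, i⟩) (i' | j' | ⟨b', i'⟩ | ⟨b', j', e'⟩ | ⟨d', i'⟩) h <;>
      simp only [adj] at h ⊢ <;> tauto⟩
  loopless := ⟨by
    rintro (i | j | ⟨b, i⟩ | ⟨b, j, e⟩ | ⟨d, i⟩) h <;> simp [adj] at h⟩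

@[simp] lemma G_adj (u v : Vert a p N k) : (G a p N k).Adj u v ↔ adj u v := Iff.rfl

/-- A colouring with `a + p + 2` colours, proper away from the clique components. -/
def col : Vert a p N k → ℕ
  | z i => i
  | h j => a + j
  | x _ i => a + i
  | y _ _ e => a + p + e
  | c _ _ => 0

lemma col_lt (hp : 2 ≤ p) (v : Vert a p N k) : v.col < a + (p + 2) := by
  rcases v with (i | j | ⟨b, i⟩ | ⟨b, j, e⟩ | ⟨d, i⟩) <;> simp only [col] <;> omega

lemma col_ne (hp : 2 ≤ p) {u v : Vert a p N k} (huv : adj u v) (hu : ∀ d i, u ≠ c d i)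
    (hv : ∀ d i, v ≠ c d i) : u.col ≠ v.col := by
  rcases u with (i | j | ⟨b, i⟩ | ⟨b, j, e⟩ | ⟨d, i⟩) <;>
    rcases v with (i' | j' | ⟨b', i'⟩ | ⟨b', j', e'⟩ | ⟨d', i'⟩) <;>
    simp only [adj, col] at huv ⊢ <;>
    first
      | exact absurd rfl (hu _ _)
      | exact absurd rfl (hv _ _)
      | omega

end Vert

open Vert

variable {a p N k : ℕ}

/-- If all leaves attached to non-universal clique vertices lie in a set of size `≤ 3`,
there are too few leaves. -/
lemma count_contra {V : Type*} (z : Fin a → V) (hst : a + 4 ≤ a + (p + 2))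
    (q : Fin (a + (p + 2)) → V) (l : Fin (a + 4) → V) (hq : Function.Injective q)
    (hl : Function.Injective l) (T : Finset V) (hT : T.card ≤ 3)
    (h : ∀ j : Fin (a + 4), (∀ i, q (Fin.castLE hst j) ≠ z i) → l j ∈ T) : False := by
  classical
  let S1 : Finset (Fin (a + 4)) := univ.filter (fun j => ∃ i, q (Fin.castLE hst j) = z i)
  let S2 : Finset (Fin (a + 4)) := univ.filter (fun j => ¬ ∃ i, q (Fin.castLE hst j) = z i)
  have h1 : S1.card ≤ a := by
    calc S1.card ≤ (univ.image z).card := by
          apply Finset.card_le_card_of_injOn (fun j => q (Fin.castLE hst j))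
          · intro j hj
            obtain ⟨i, hi⟩ := (Finset.mem_filter.mp hj).2
            simp only [Finset.coe_image, Finset.coe_univ, Set.image_univ, Set.mem_range]
            exact ⟨i, hi.symm⟩
          · intro j _ j' _ hjj
            exact Fin.castLE_injective hst (hq hjj)
      _ ≤ a := by simpa using Finset.card_image_le (s := univ) (f := z)
  have h2 : S2.card ≤ 3 := by
    refine le_trans ?_ hT
    apply Finset.card_le_card_of_injOn l
    · intro j hj
      have := (Finset.mem_filter.mp hj).2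
      push Not at this
      exact h j this
    · intro j _ j' _ hjj
      exact hl hjj
  have h3 : S1.card + S2.card = a + 4 := by
    have := Finset.card_filter_add_card_filter_not (s := (univ : Finset (Fin (a + 4))))
      (fun j => ∃ i, q (Fin.castLE hst j) = z i)
    simpa [S1, S2] using this
  omega

theorem G_free (hp : 4 ≤ p) : (virus (a + 4) (a + (p + 2))).Free (G a p N k) := by
  classical
  rintro ⟨f⟩
  have hst : a + 4 ≤ a + (p + 2) := by omega
  let q : Fin (a + (p + 2)) → Vert a p N k := fun i => f (Sum.inl i)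
  let l : Fin (a + 4) → Vert a p N k := fun i => f (Sum.inr i)
  have hq : Function.Injective q := fun i j hij => Sum.inl_injective (f.injective hij)
  have hl : Function.Injective l := fun i j hij => Sum.inr_injective (f.injective hij)
  have hql : ∀ i j, q i ≠ l j := fun i j hij => Sum.inl_ne_inr (f.injective hij)
  have hclique : ∀ i j, i ≠ j → adj (q i) (q j) := fun i j hij => f.toHom.map_adj hij
  have hleaf : ∀ j, adj (q (Fin.castLE hst j)) (l j) := fun j =>
    f.toHom.map_adj (v := Sum.inl (Fin.castLE hst j)) (w := Sum.inr j)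
      (show (((Fin.castLE hst j : Fin (a + (p + 2))) : ℕ) = (j : ℕ)) from rfl)
  by_cases hC : ∃ i d e, q i = c d e
  · -- the clique lies in `Z ∪ C_d`
    obtain ⟨i0, d, e0, hi0⟩ := hC
    have hQ : ∀ i, (∃ i', q i = z i') ∨ ∃ e, q i = c d e := by
      intro i
      by_cases hi : i = i0
      · subst hi
        exact Or.inr ⟨_, hi0⟩
      · have h1 := hclique _ _ hi
        rw [hi0] at h1
        rcases h2 : q i with (i' | j | ⟨b, i'⟩ | ⟨b, j, e⟩ | ⟨d', i'⟩) <;> rw [h2] at h1 <;>
          simp only [adj] at h1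
        · exact Or.inl ⟨_, rfl⟩
        · exact Or.inr ⟨i', by rw [h1.1]⟩
    let ZC : Finset (Vert a p N k) := univ.image z ∪ univ.image (c d)
    have hZC : ZC.card ≤ a + (p + 5) := by
      refine (Finset.card_union_le _ _).trans ?_
      have h1 : (univ.image (z : Fin a → Vert a p N k)).card ≤ a := by
        simpa using Finset.card_image_le (s := univ) (f := (z : Fin a → Vert a p N k))
      have h2 : (univ.image (c d : Fin (p + 5) → Vert a p N k)).card ≤ p + 5 := by
        simpa using Finset.card_image_le (s := univ) (f := (c d : Fin (p + 5) → Vert a p N k))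
      omega
    have hsub : univ.image q ⊆ ZC := by
      intro v hv
      obtain ⟨i, -, rfl⟩ := Finset.mem_image.mp hv
      rcases hQ i with ⟨i', h⟩ | ⟨e, h⟩
      · rw [h]; simp [ZC]
      · rw [h]; simp [ZC]
    have hcq : (univ.image q).card = a + (p + 2) := by
      rw [Finset.card_image_of_injective _ hq]
      simp
    refine count_contra z hst q l hq hl (ZC \ univ.image q) ?_ ?_
    · rw [Finset.card_sdiff_of_subset hsub]
      omega
    · intro j hj
      obtain ⟨e, he⟩ := (hQ (Fin.castLE hst j)).resolve_left (fun ⟨i, hi⟩ => hj i hi)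
      have h1 := hleaf j
      rw [he] at h1
      rw [Finset.mem_sdiff]
      refine ⟨?_, ?_⟩
      · rcases h2 : l j with (i' | j' | ⟨b, i'⟩ | ⟨b, j', e⟩ | ⟨d', i'⟩) <;> rw [h2] at h1 <;>
          simp only [adj] at h1
        · simp [ZC]
        · simp [ZC, h1.1]
      · intro h2
        obtain ⟨i, -, hi⟩ := Finset.mem_image.mp h2
        exact hql _ _ hi
  · -- the clique avoids the clique components
    have hC' : ∀ i d e, q i ≠ c d e := fun i d e hi => hC ⟨i, d, e, hi⟩
    let cf : Fin (a + (p + 2)) → Fin (a + (p + 2)) := fun i => ⟨(q i).col, col_lt (by omega) _⟩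
    have hcf : Function.Injective cf := by
      intro i j hij
      by_contra hne
      exact col_ne (by omega) (hclique i j hne) (hC' i) (hC' j) (Fin.mk.inj_iff.mp hij)
    have hcs : Function.Surjective cf := Finite.surjective_of_injective hcf
    have hcs' : ∀ m, m < a + (p + 2) → ∃ i, (q i).col = m := by
      intro m hm
      obtain ⟨i, hi⟩ := hcs ⟨m, hm⟩
      exact ⟨i, Fin.mk.inj_iff.mp hi⟩
    obtain ⟨i0, h0⟩ := hcs' (a + 2) (by omega)
    obtain ⟨i1, h1⟩ := hcs' (a + p) (by omega)
    obtain ⟨i2, h2⟩ := hcs' (a + p + 1) (by omega)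
    -- the vertex `x b 2`
    obtain ⟨b, e0, hx⟩ : ∃ b e, q i0 = x b e := by
      rcases h3 : q i0 with (i' | j' | ⟨b, i'⟩ | ⟨b, j', e⟩ | ⟨d', i'⟩) <;>
        rw [h3] at h0 <;> simp only [col] at h0
      · omega
      · omega
      · exact ⟨_, _, rfl⟩
      · omega
      · exact absurd h3 (hC' _ _ _)
    have hi01 : i0 ≠ i1 := by
      rintro rfl
      omega
    have hi02 : i0 ≠ i2 := by
      rintro rfl
      omega
    have hi12 : i1 ≠ i2 := by
      rintro rfl
      omega
    obtain ⟨j, hy1⟩ : ∃ j, q i1 = y b j 0 := by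
      have h4 := hclique _ _ hi01
      rw [hx] at h4
      rcases h3 : q i1 with (i' | j' | ⟨b', i'⟩ | ⟨b', j', e⟩ | ⟨d', i'⟩) <;>
        rw [h3] at h1 h4 <;> simp only [col, adj] at h1 h4
      · omega
      · omega
      · exact ⟨j', by rw [h4, show e = 0 by omega]⟩
    have hy2 : q i2 = y b j 1 := by
      have h4 := hclique _ _ hi02
      have h5 := hclique _ _ hi12
      rw [hx] at h4
      rw [hy1] at h5
      rcases h3 : q i2 with (i' | j' | ⟨b', i'⟩ | ⟨b', j', e⟩ | ⟨d', i'⟩) <;>
        rw [h3] at h2 h4 h5 <;> simp only [col, adj] at h2 h4 h5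
      · omega
      · omega
      · rw [← h4, ← h5.2.1, show e = 1 by omega]
    have hQ : ∀ i, (∃ i', q i = z i') ∨ (∃ e, q i = x b e) ∨ (∃ e, q i = y b j e) := by
      intro i
      by_cases hi : i = i0
      · subst hi
        exact Or.inr (Or.inl ⟨_, hx⟩)
      by_cases hi' : i = i1
      · subst hi'
        exact Or.inr (Or.inr ⟨_, hy1⟩)
      have h4 := hclique _ _ hi
      have h5 := hclique _ _ hi'
      rw [hx] at h4
      rw [hy1] at h5
      rcases h3 : q i with (i' | j' | ⟨b', i'⟩ | ⟨b', j', e⟩ | ⟨d', i'⟩) <;>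
        rw [h3] at h4 h5 <;> simp only [adj] at h4 h5
      · exact Or.inl ⟨_, rfl⟩
      · exact Or.inr (Or.inl ⟨i', by rw [h4.1]⟩)
      · exact Or.inr (Or.inr ⟨e, by rw [h5.1, h5.2.1]⟩)
    -- conversely all these vertices are in the clique
    have hQz : ∀ i', ∃ i, q i = z i' := by
      intro i'
      obtain ⟨i, hi⟩ := hcs' i' (by omega)
      refine ⟨i, ?_⟩
      rcases hQ i with ⟨i'', h⟩ | ⟨e, h⟩ | ⟨e, h⟩ <;> rw [h] at hi <;> simp only [col] at hi
      · rw [h, Fin.ext hi]
      · omega
      · omega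
    have hQx : ∀ i', ∃ i, q i = x b i' := by
      intro i'
      obtain ⟨i, hi⟩ := hcs' (a + i') (by omega)
      refine ⟨i, ?_⟩
      rcases hQ i with ⟨i'', h⟩ | ⟨e, h⟩ | ⟨e, h⟩ <;> rw [h] at hi <;> simp only [col] at hi
      · omega
      · rw [h, show e = i' by omega]
      · omega
    have hQy : ∀ e', ∃ i, q i = y b j e' := by
      intro e'
      fin_cases e'
      · exact ⟨i1, hy1⟩
      · exact ⟨i2, hy2⟩
    refine count_contra z hst q l hq hl {h j, y b (j + 1) 0, y b (j + 1) 1}
      Finset.card_le_three ?_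
    intro m hm
    have hlz : ∀ i', l m ≠ z i' := by
      intro i' h
      obtain ⟨i, hi⟩ := hQz i'
      exact hql i m (by rw [hi, h])
    have hlx : ∀ i', l m ≠ x b i' := by
      intro i' h
      obtain ⟨i, hi⟩ := hQx i'
      exact hql i m (by rw [hi, h])
    have hly : ∀ e', l m ≠ y b j e' := by
      intro i' h
      obtain ⟨i, hi⟩ := hQy i'
      exact hql i m (by rw [hi, h])
    have hlf := hleaf m
    have hjj0 : ∀ j j' : Fin 2, j' ≠ j → j' = j + 1 := by decide
    have hjj := hjj0 j
    have hee : ∀ e : Fin 2, e = 0 ∨ e = 1 := by decide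
    rcases hQ (Fin.castLE hst m) with ⟨i'', h⟩ | ⟨e, h⟩ | ⟨e, h⟩
    · exact absurd h (hm _)
    · rw [h] at hlf
      rcases h3 : l m with (i' | j' | ⟨b', i'⟩ | ⟨b', j', e⟩ | ⟨d', i'⟩) <;>
        rw [h3] at hlf hlz hlx hly <;> simp only [adj] at hlf
      · exact absurd rfl (hlz _)
      · obtain ⟨rfl, -⟩ := hlf
        exact absurd rfl (hlx _)
      · subst hlf
        have h6 : j' ≠ j := by
          rintro rfl
          exact hly _ rfl
        rw [hjj _ h6]
        rcases hee e with rfl | rfl <;> simp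
    · rw [h] at hlf
      rcases h3 : l m with (i' | j' | ⟨b', i'⟩ | ⟨b', j', e⟩ | ⟨d', i'⟩) <;>
        rw [h3] at hlf hlz hlx hly <;> simp only [adj] at hlf
      · exact absurd rfl (hlz _)
      · rw [hlf]
        simp
      · subst hlf
        exact absurd rfl (hlx _)
      · obtain ⟨rfl, rfl, -⟩ := hlf
        exact absurd rfl (hly _)

end Pool.Agent.MP_2b7cb2_co
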