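import Pool.Agent.Lib.MP_2b7cb2_co.Edges

namespace Pool.Agent.MP_2b7cb2_co

open SimpleGraph Finset Vert

/-- The construction, transported to `Fin n`. -/
lemma exists_saturated_Nk (a p N k n : ℕ) (hp : 4 ≤ p)
    (hn : n = a + 2 + N * (p + 4) + k * (p + 5)) (hn2 : (a + 4) + (a + (p + 2)) ≤ n) :
    ∃ G : SimpleGraph (Fin n), IsSaturated (virus (a + 4) (a + (p + 2))) G ∧
      2 * G.edgeSet.ncard + (a + p + 2) * (a + 2) = (p + 2 * a + 3) * n + k * (p + 5) := by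
  have hcard : Fintype.card (Vert a p N k) = n := by rw [card_vert, hn]
  let e : Fin n ≃ Vert a p N k := (Fintype.equivFinOfCardEq hcard).symm
  refine ⟨(G a p N k).comap e, (G_saturated hp (by omega)).comap_equiv e, ?_⟩
  have h1 : ((G a p N k).comap e).edgeSet.ncard = (G a p N k).edgeSet.ncard := by
    have := Nat.card_congr (SimpleGraph.Iso.comap e (G a p N k)).mapEdgeSet
    simpa [Set.ncard] using this
  rw [h1, hn]
  exact two_mul_ncard (by omega)

/-- An explicit construction for all large `n`. -/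
theorem exists_saturated_le (s t : ℕ) (hs : 4 ≤ s) (hst : s + 2 ≤ t) (n : ℕ) (hn : s + t ≤ n)
    (hn2 : (s - 2) + (t - s + 5) * (t - s + 7) ≤ n) :
    ∃ G : SimpleGraph (Fin n), IsSaturated (virus s t) G ∧
      2 * G.edgeSet.ncard + t * (s - 2) ≤ (t + s - 3) * n + (t - s + 5) * (t - s + 7) := by
  obtain ⟨a, rfl⟩ : ∃ a, s = a + 4 := ⟨s - 4, by omega⟩
  obtain ⟨p, rfl⟩ : ∃ p, t = a + (p + 2) := ⟨t - (a + 2), by omega⟩
  have hp : 4 ≤ p := by omega
  have e1 : a + (p + 2) - (a + 4) + 5 = p + 3 := by omega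
  have e2 : a + (p + 2) - (a + 4) + 7 = p + 5 := by omega
  have e3 : a + 4 - 2 = a + 2 := by omega
  have e4 : a + (p + 2) + (a + 4) - 3 = p + 2 * a + 3 := by omega
  rw [e1, e2, e3] at hn2 ⊢
  rw [e4]
  set r := n - (a + 2) with hr
  have hrn : n = a + 2 + r := by omega
  set k := r % (p + 4) with hk
  have hk1 : k ≤ p + 3 := by
    have : k < p + 4 := Nat.mod_lt _ (by omega)
    omega
  have hrk : r = (p + 4) * (r / (p + 4)) + k := (Nat.div_add_mod r (p + 4)).symm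
  have hdiv : p + 3 ≤ r / (p + 4) := by
    rw [Nat.le_div_iff_mul_le (by omega)]
    have h1 : (p + 3) * (p + 5) ≤ r := by omega
    nlinarith
  obtain ⟨N, hN⟩ : ∃ N, r / (p + 4) = N + k := ⟨r / (p + 4) - k, by omega⟩
  rw [hN] at hrk
  obtain ⟨G, hG, he⟩ := exists_saturated_Nk a p N k n hp (by rw [hrn, hrk]; ring) (by omega)
  refine ⟨G, hG, ?_⟩
  have h5 : k * (p + 5) ≤ (p + 3) * (p + 5) := Nat.mul_le_mul_right _ hk1
  have h6 : (a + (p + 2)) * (a + 2) = (a + p + 2) * (a + 2) := by ring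
  rw [h6, he]
  omega

theorem sat_le (s t : ℕ) (hs : 4 ≤ s) (hst : s + 2 ≤ t) (n : ℕ) (hn : s + t ≤ n)
    (hn2 : (s - 2) + (t - s + 5) * (t - s + 7) ≤ n) :
    2 * sat n (virus s t) + t * (s - 2) ≤ (t + s - 3) * n + (t - s + 5) * (t - s + 7) := by
  obtain ⟨G, hG, he⟩ := exists_saturated_le s t hs hst n hn hn2
  have h1 : sat n (virus s t) ≤ G.edgeSet.ncard := Nat.sInf_le ⟨G, hG, rfl⟩
  omega

/-- The difference `sat(n, K^s_t) - (t + s - 2) n / 2` tends to `-∞`. -/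
theorem tendsto_atBot (s t : ℕ) (hs : 4 ≤ s) (hst : s + 2 ≤ t) :
    Filter.Tendsto (fun n : ℕ => (sat n (virus s t) : ℝ) - ((t : ℝ) + s - 2) / 2 * n)
      Filter.atTop Filter.atBot := by
  rw [Filter.tendsto_atBot]
  intro B
  set D : ℝ := ((t : ℝ) - s + 5) * ((t : ℝ) - s + 7) with hD
  obtain ⟨M, hM⟩ := exists_nat_gt (D - 2 * B)
  filter_upwards [Filter.eventually_ge_atTop
    (max M (max (s + t) ((s - 2) + (t - s + 5) * (t - s + 7))))] with n hn
  have hn1 : M ≤ n := le_trans (le_max_left _ _) hn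
  have hn2 : s + t ≤ n := le_trans (le_trans (le_max_left _ _) (le_max_right _ _)) hn
  have hn3 : (s - 2) + (t - s + 5) * (t - s + 7) ≤ n :=
    le_trans (le_trans (le_max_right _ _) (le_max_right _ _)) hn
  have h1 := sat_le s t hs hst n hn2 hn3
  have h2 : 2 * (sat n (virus s t) : ℝ) ≤ ((t : ℝ) + s - 3) * n + D := by
    have h3 : ((2 * sat n (virus s t) + t * (s - 2) : ℕ) : ℝ) ≤
        (((t + s - 3) * n + (t - s + 5) * (t - s + 7) : ℕ) : ℝ) := by exact_mod_cast h1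
    push_cast [Nat.cast_sub (show 2 ≤ s by omega), Nat.cast_sub (show 3 ≤ t + s by omega),
      Nat.cast_sub (show s ≤ t by omega)] at h3
    have h4 : (0 : ℝ) ≤ (t : ℝ) * ((s : ℝ) - 2) := by
      have : (4 : ℝ) ≤ s := by exact_mod_cast hs
      have h5 : (0 : ℝ) ≤ t := Nat.cast_nonneg _
      nlinarith
    linarith
  have h6 : (M : ℝ) ≤ n := by exact_mod_cast hn1
  linarith

theorem unbounded (s t : ℕ) (hs : 4 ≤ s) (hst : s + 2 ≤ t) :
    ¬ ∃ C : ℝ, ∀ n : ℕ, s + t ≤ n →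
      |(sat n (virus s t) : ℝ) - ((t : ℝ) + s - 2) / 2 * n| ≤ C := by
  rintro ⟨C, hC⟩
  have h1 := tendsto_atBot s t hs hst
  rw [Filter.tendsto_atBot] at h1
  obtain ⟨n, hn, hn2⟩ := ((h1 (-C - 1)).and (Filter.eventually_ge_atTop (s + t))).exists
  have h2 := hC n hn2
  rw [abs_le] at h2
  linarith

end Pool.Agent.MP_2b7cb2_co
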