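import Pool.Agent.Lib.MP_2b7cb2_co.Graph

namespace Pool.Agent.MP_2b7cb2_co

open SimpleGraph Finset Vert

variable {a p N k : ℕ}

lemma injective_vec4 {α : Type*} {w : Fin 4 → α} (h01 : w 0 ≠ w 1) (h02 : w 0 ≠ w 2)
    (h03 : w 0 ≠ w 3) (h12 : w 1 ≠ w 2) (h13 : w 1 ≠ w 3) (h23 : w 2 ≠ w 3) :
    Function.Injective w := by
  intro i j h
  fin_cases i <;> fin_cases j <;> first
    | rfl
    | exact absurd h h01
    | exact absurd h h02
    | exact absurd h h03
    | exact absurd h h12
    | exact absurd h h13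
    | exact absurd h h23
    | exact absurd h.symm h01
    | exact absurd h.symm h02
    | exact absurd h.symm h03
    | exact absurd h.symm h12
    | exact absurd h.symm h13
    | exact absurd h.symm h23

/-- The clique of a block: `X_b ∪ Y_{b,j}`. -/
def qb (b : Fin N) (j : Fin 2) : Fin p ⊕ Fin 2 → Vert a p N k :=
  Sum.elim (x b) (y b j)

lemma contained_block (hcard : (a + 4) + (a + (p + 2)) ≤ Fintype.card (Vert a p N k))
    (G' : SimpleGraph (Vert a p N k)) (hG : G a p N k ≤ G') (b : Fin N) (j e' : Fin 2)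
    (i1 i2 : Fin p) (hi : i1 ≠ i2) (u : Fin p ⊕ Fin 2) (hue : u ≠ .inr e') (hu1 : u ≠ .inl i1)
    (hu2 : u ≠ .inl i2) (v : Vert a p N k) (hv : G'.Adj (qb b j u) v)
    (hvz : ∀ i, z i ≠ v) (hvq : ∀ i, qb b j i ≠ v) (hvh : v ≠ h j)
    (hvy : ∀ e, v ≠ y b (j + 1) e) :
    (virus (a + 4) (a + (p + 2))).IsContained G' := by
  have hjj : ∀ j : Fin 2, j ≠ j + 1 := by decide
  refine virus_isContained_of_data (A := Fin p ⊕ Fin 2) (R := Fin 4) (by simp) (by simp) G' z
    (qb b j) ![v, h j, y b (j + 1) 0, y b (j + 1) 1] ![u, .inr e', .inl i1, .inl i2]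
    ?_ ?_ ?_ ?_ ?_ ?_ ?_ ?_ ?_ ?_ hcard
  · intro i i' h
    simpa using h
  · rintro (i | i) (i' | i') h <;> simp [qb] at h ⊢ <;> exact h
  · apply injective_vec4
    · exact hvh
    · exact hvy 0
    · exact hvy 1
    · simp
    · simp
    · simp
  · apply injective_vec4
    · exact hue
    · exact hu1
    · exact hu2
    · simp
    · simp
    · simpa using hi
  · intro i w hw
    apply hG
    rcases w with (i' | j' | ⟨b', i'⟩ | ⟨b', j', e''⟩ | ⟨d', i'⟩) <;> simp only [G_adj, adj]
    rintro rfl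
    exact hw rfl
  · rintro (i | i) (i' | i') h <;> apply hG <;> simp [qb, adj] at h ⊢ <;> exact h
  · rintro i (i' | i') <;> simp [qb]
  · intro i i'
    fin_cases i'
    · exact hvz i
    · simp
    · simp
    · simp
  · intro i i'
    fin_cases i'
    · exact hvq i
    · rcases i with (i | i) <;> simp [qb]
    · rcases i with (i | i) <;> simp [qb, hjj j]
    · rcases i with (i | i) <;> simp [qb, hjj j]
  · intro i
    fin_cases i
    · exact hv
    · apply hG
      simp [qb, adj]
    · apply hG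
      simp [qb, adj]
    · apply hG
      simp [qb, adj]

/-- The new edge joins `Y_{b,0}` to `Y_{b,1}`. -/
lemma contained_inner (hp : 2 ≤ p) (hcard : (a + 4) + (a + (p + 2)) ≤ Fintype.card (Vert a p N k))
    (G' : SimpleGraph (Vert a p N k)) (hG : G a p N k ≤ G') (b : Fin N) (j j' e e' : Fin 2)
    (hj : j ≠ j') (hv : G'.Adj (y b j e) (y b j' e')) :
    (virus (a + 4) (a + (p + 2))).IsContained G' := by
  have hee : ∀ e : Fin 2, e ≠ e + 1 := by decide
  refine virus_isContained_of_data (A := Fin p ⊕ Fin 2) (R := Fin 4) (by simp) (by simp) G' z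
    (Sum.elim (x b) ![y b j e, y b j' e']) ![h j, h j', y b j (e + 1), y b j' (e' + 1)]
    ![.inr 0, .inr 1, .inl ⟨0, by omega⟩, .inl ⟨1, by omega⟩]
    ?_ ?_ ?_ ?_ ?_ ?_ ?_ ?_ ?_ ?_ hcard
  · intro i i' h
    simpa using h
  · rintro (i | i) (i' | i') h
    · simpa using h
    · fin_cases i' <;> simp at h
    · fin_cases i <;> simp at h
    · fin_cases i <;> fin_cases i' <;> simp at h ⊢
      · exact hj h.1
      · exact hj h.1.symm
  · apply injective_vec4 <;> simp [hj]
  · apply injective_vec4 <;> simp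
  · intro i w hw
    apply hG
    rcases w with (i' | j' | ⟨b', i'⟩ | ⟨b', j', e''⟩ | ⟨d', i'⟩) <;> simp only [G_adj, adj]
    rintro rfl
    exact hw rfl
  · rintro (i | i) (i' | i') h
    · apply hG
      simpa [adj] using h
    · apply hG
      fin_cases i' <;> simp [adj]
    · apply hG
      fin_cases i <;> simp [adj]
    · fin_cases i <;> fin_cases i' <;> simp at h ⊢
      · exact hv
      · exact hv.symm
  · rintro i (i' | i')
    · simp
    · fin_cases i' <;> simp
  · intro i i'
    fin_cases i' <;> simp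
  · intro i i'
    rcases i with (i | i)
    · fin_cases i' <;> simp
    · fin_cases i <;> fin_cases i' <;> simp [hj, hj.symm, hee]
  · intro i
    fin_cases i <;> apply hG <;> simp [adj]

/-- The new edge leaves a clique component. -/
lemma contained_comp (hp : 2 ≤ p) (hcard : (a + 4) + (a + (p + 2)) ≤ Fintype.card (Vert a p N k))
    (G' : SimpleGraph (Vert a p N k)) (hG : G a p N k ≤ G') (d : Fin k) (i : Fin (p + 5))
    (v : Vert a p N k) (hv : G'.Adj (c d i) v) (hvz : ∀ i, z i ≠ v) (hvc : ∀ i, c d i ≠ v) :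
    (virus (a + 4) (a + (p + 2))).IsContained G' := by
  let σ : Equiv.Perm (Fin (p + 5)) := Equiv.swap 0 i
  have hσ0 : σ 0 = i := Equiv.swap_apply_left 0 i
  let lf : Fin 4 → Vert a p N k :=
    ![v, c d (σ ⟨p + 2, by omega⟩), c d (σ ⟨p + 3, by omega⟩), c d (σ ⟨p + 4, by omega⟩)]
  refine virus_isContained_of_data (A := Fin (p + 2)) (R := Fin 4) (by simp) (by simp) G' z
    (fun i => c d (σ (Fin.castLE (by omega) i))) lf
    (Fin.castLE (by omega)) ?_ ?_ ?_ ?_ ?_ ?_ ?_ ?_ ?_ ?_ hcard
  · intro i i' h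
    simpa using h
  · intro i i' h
    simpa using h
  · apply injective_vec4
    · exact (hvc _).symm
    · exact (hvc _).symm
    · exact (hvc _).symm
    · simp [lf]
    · simp [lf]
    · simp [lf]
  · exact Fin.castLE_injective _
  · intro i w hw
    apply hG
    rcases w with (i' | j' | ⟨b', i'⟩ | ⟨b', j', e''⟩ | ⟨d', i'⟩) <;> simp only [G_adj, adj]
    rintro rfl
    exact hw rfl
  · intro i i' h
    apply hG
    simpa [adj] using h
  · intro i i'
    simp
  · intro i i'
    fin_cases i'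
    · exact hvz i
    · simp [lf]
    · simp [lf]
    · simp [lf]
  · intro i i'
    fin_cases i'
    · exact hvc _
    · simp [lf, Fin.ext_iff]
      omega
    · simp [lf, Fin.ext_iff]
      omega
    · simp [lf, Fin.ext_iff]
      omega
  · intro i'
    fin_cases i'
    · rw [← hσ0] at hv
      exact hv
    · apply hG
      simp [lf, adj, Fin.ext_iff]
    · apply hG
      simp [lf, adj, Fin.ext_iff]
    · apply hG
      simp [lf, adj, Fin.ext_iff]

lemma sat_aux (hp : 4 ≤ p) (hcard : (a + 4) + (a + (p + 2)) ≤ Fintype.card (Vert a p N k))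
    (G' : SimpleGraph (Vert a p N k)) (hG : G a p N k ≤ G') (u v : Vert a p N k)
    (huv : u ≠ v) (hn : ¬ (G a p N k).Adj u v) (hadj : G'.Adj u v) :
    (virus (a + 4) (a + (p + 2))).IsContained G' := by
  have two : ∀ i : Fin p, ∃ i1 i2 : Fin p, i ≠ i1 ∧ i ≠ i2 ∧ i1 ≠ i2 := by
    intro i
    by_cases h0 : i = ⟨0, by omega⟩
    · exact ⟨⟨1, by omega⟩, ⟨2, by omega⟩, by simp [h0], by simp [h0], by simp⟩
    · by_cases h1 : i = ⟨1, by omega⟩
      · exact ⟨⟨0, by omega⟩, ⟨2, by omega⟩, by simp [h1], by simp [h1], by simp⟩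
      · exact ⟨⟨0, by omega⟩, ⟨1, by omega⟩, h0, h1, by simp⟩
  have hee : ∀ e : Fin 2, e ≠ e + 1 := by decide
  have hjj : ∀ j j' : Fin 2, j ≠ j' → j' = j + 1 := by decide
  -- the new edge leaves `x b i` and does not end in its block
  have Hx : ∀ (b : Fin N) (i : Fin p) (j : Fin 2) (v : Vert a p N k), G'.Adj (x b i) v →
      (∀ i, z i ≠ v) → (∀ i', x b i' ≠ v) → (∀ j e, y b j e ≠ v) → v ≠ h j →
      (virus (a + 4) (a + (p + 2))).IsContained G' := by
    intro b i j v h1 h2 h3 h4 h5
    obtain ⟨i1, i2, hi1, hi2, hi12⟩ := two i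
    refine contained_block hcard G' hG b j 0 i1 i2 hi12 (.inl i) (by simp) (by simpa using hi1)
      (by simpa using hi2) v h1 h2 ?_ h5 (fun e => (h4 _ _).symm)
    rintro (i' | e)
    · exact h3 i'
    · exact h4 j e
  have Hy : ∀ (b : Fin N) (j e : Fin 2) (v : Vert a p N k), G'.Adj (y b j e) v →
      (∀ i, z i ≠ v) → (∀ i', x b i' ≠ v) → (∀ j e, y b j e ≠ v) → v ≠ h j →
      (virus (a + 4) (a + (p + 2))).IsContained G' := by
    intro b j e v h1 h2 h3 h4 h5
    refine contained_block hcard G' hG b j (e + 1) ⟨0, by omega⟩ ⟨1, by omega⟩ (by simp) (.inr e)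
      (by simp) (by simp)
      (by simp) v h1 h2 ?_ h5 (fun e => (h4 _ _).symm)
    rintro (i' | e)
    · exact h3 i'
    · exact h4 j e
  -- the new edge leaves a clique component
  have Hc : ∀ (d : Fin k) (i : Fin (p + 5)) (v : Vert a p N k), G'.Adj (c d i) v →
      (∀ i, z i ≠ v) → (∀ i', c d i' ≠ v) →
      (virus (a + 4) (a + (p + 2))).IsContained G' := fun d i v h1 h2 h3 =>
    contained_comp (by omega) hcard G' hG d i v h1 h2 h3
  rcases u with (i | j | ⟨b, i⟩ | ⟨b, j, e⟩ | ⟨d, i⟩) <;>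
    rcases v with (i' | j' | ⟨b', i'⟩ | ⟨b', j', e'⟩ | ⟨d', i'⟩) <;>
    simp only [G_adj, adj, not_true_eq_false, not_false_eq_true] at hn
  · exact absurd (by rintro rfl; exact huv rfl) hn
  · exact absurd (by rintro rfl; exact huv rfl) hn
  · -- h j, x b' i'
    refine Hx b' i' (j + 1) _ hadj.symm ?_ ?_ ?_ ?_
    · simp
    · simp
    · simp
    · simp
  · -- h j, y b' j' e'
    refine Hy b' j' e' _ hadj.symm ?_ ?_ ?_ ?_
    · simp
    · simp
    · simp
    · simpa using hn
  · exact Hc d' i' _ hadj.symm (by simp) (by simp)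
  · -- x b i, h j'
    refine Hx b i (j' + 1) _ hadj ?_ ?_ ?_ ?_
    · simp
    · simp
    · simp
    · simp
  · -- x b i, x b' i'
    have hb : b ≠ b' := by
      rintro rfl
      apply hn
      refine ⟨rfl, ?_⟩
      rintro rfl
      exact huv rfl
    refine Hx b i 0 _ hadj ?_ ?_ ?_ ?_
    · simp
    · simp [hb]
    · simp
    · simp
  · -- x b i, y b' j' e'
    have hb : b ≠ b' := hn
    refine Hx b i 0 _ hadj ?_ ?_ ?_ ?_
    · simp
    · simp
    · simp [hb]
    · simp
  · exact Hc d' i' _ hadj.symm (by simp) (by simp)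
  · -- y b j e, h j'
    refine Hy b j e _ hadj ?_ ?_ ?_ ?_
    · simp
    · simp
    · simp
    · simpa using hn
  · -- y b j e, x b' i'
    have hb : b' ≠ b := hn
    refine Hy b j e _ hadj ?_ ?_ ?_ ?_
    · simp
    · simp [hb.symm]
    · simp
    · simp
  · -- y b j e, y b' j' e'
    by_cases hb : b = b'
    · subst hb
      have hj : j ≠ j' := by
        rintro rfl
        apply hn
        refine ⟨rfl, rfl, ?_⟩
        rintro rfl
        exact huv rfl
      exact contained_inner (by omega) hcard G' hG b j j' e e' hj hadj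
    · refine Hy b j e _ hadj ?_ ?_ ?_ ?_
      · simp
      · simp
      · simp [hb]
      · simp
  · exact Hc d' i' _ hadj.symm (by simp) (by simp)
  · exact Hc d i _ hadj (by simp) (by simp)
  · exact Hc d i _ hadj (by simp) (by simp)
  · exact Hc d i _ hadj (by simp) (by simp)
  · have hd : d ≠ d' := by
      rintro rfl
      apply hn
      refine ⟨rfl, ?_⟩
      rintro rfl
      exact huv rfl
    exact Hc d i _ hadj (by simp) (by simp [hd])

theorem G_saturated (hp : 4 ≤ p)
    (hcard : (a + 4) + (a + (p + 2)) ≤ a + 2 + N * (p + 4) + k * (p + 5)) :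
    IsSaturated (virus (a + 4) (a + (p + 2))) (G a p N k) := by
  refine ⟨G_free hp, ?_⟩
  intro u v huv hn
  refine sat_aux hp (by rw [card_vert]; exact hcard) _ le_sup_left u v huv hn ?_
  rw [SimpleGraph.sup_adj, SimpleGraph.edge_adj]
  exact Or.inr ⟨Or.inl ⟨rfl, rfl⟩, huv⟩

end Pool.Agent.MP_2b7cb2_co
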